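import Pool.Agent.Helper6.IP.Defs

/-!
# Branching programs with a pushdown store
-/

namespace Pool.Agent.Helper18.IP

/-- The instructions of a branching program with a pushdown store for input cells `C` with contents in `A`: query a
cell, push a symbol, pop a symbol, or give the output. -/
inductive PAct (C A S Γ : Type)
  | ask (c : C) (next : A → S) : PAct C A S Γ
  | push (g : Γ) (next : S) : PAct C A S Γ
  | pop (next : Γ → S) : PAct C A S Γ
  | out (a : A) : PAct C A S Γ

/-- A deterministic branching program with a pushdown store: `S` states, `Γ` stack symbols. -/
structure PBP (C A S Γ : Type) where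
  start : S
  act : S → PAct C A S Γ

variable {C A S Γ : Type}

/-- One step on the input `I` (to pop from the empty stack is impossible: the program stays; final states do not
move). -/
def PBP.step (P : PBP C A S Γ) (I : C → A) (c : S × List Γ) : S × List Γ :=
  match P.act c.1 with
  | .ask v next => (next (I v), c.2)
  | .push g s => (s, g :: c.2)
  | .pop next => match c.2 with
    | [] => c
    | g :: st => (next g, st)
  | .out _ => c

/-- The configuration after `m` steps. -/
def PBP.conf (P : PBP C A S Γ) (I : C → A) (m : ℕ) : S × List Γ := (P.step I)^[m] (P.start, [])

/-- The output on the input `I` is `a`. -/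
def PBP.Outputs (P : PBP C A S Γ) (I : C → A) (a : A) : Prop := ∃ m, P.act (P.conf I m).1 = .out a

/-- On the input `I` the cell `c` is queried. -/
def PBP.Asks (P : PBP C A S Γ) (I : C → A) (c : C) : Prop := ∃ m next, P.act (P.conf I m).1 = .ask c next

end Pool.Agent.Helper18.IP
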