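import Pool.Agent.Helper18.IP.Model
import Pool.Agent.Helper98.IP.Peb

/-!
# Evaluation of a directed acyclic graph by recursion, with a pushdown store
-/

namespace Pool.Agent.Helper18.IP

open Pool.Agent.Helper6.IP Pool.Agent.Helper98.IP

/-! ## Runs -/

section runs

variable {C A S Γ : Type}

/-- From the configuration `c` the program outputs `a` and queries only cells in `R`. -/
def Good (P : PBP C A S Γ) (I : C → A) (R : Set C) (a : A) (c : S × List Γ) : Prop :=
  (∃ m, P.act ((P.step I)^[m] c).1 = .out a) ∧
    ∀ m v nx, P.act ((P.step I)^[m] c).1 = .ask v nx → v ∈ R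

variable {P : PBP C A S Γ} {I : C → A} {R : Set C} {a : A}

theorem good_out {c : S × List Γ} (h : P.act c.1 = .out a) : Good P I R a c := by
  have h1 : ∀ m, (P.step I)^[m] c = c := by
    intro m
    induction m with
    | zero => rfl
    | succ m ih =>
      rw [Function.iterate_succ_apply', ih]
      unfold PBP.step
      simp only [h]
  refine ⟨⟨0, h⟩, fun m v nx hm => ?_⟩
  rw [h1, h] at hm
  cases hm

theorem good_one {c c' : S × List Γ} (h : P.step I c = c') (hR : ∀ v nx, P.act c.1 = .ask v nx → v ∈ R)
    (hg : Good P I R a c') : Good P I R a c := by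
  obtain ⟨⟨m, hm⟩, h2⟩ := hg
  refine ⟨⟨m + 1, by rw [Function.iterate_succ_apply, h]; exact hm⟩, fun m' v nx hm' => ?_⟩
  rcases m' with _ | m'
  · exact hR v nx hm'
  · rw [Function.iterate_succ_apply, h] at hm'
    exact h2 m' v nx hm'

theorem good_ask {s : S} {st : List Γ} {v : C} {nx : A → S} (h : P.act s = .ask v nx) (hv : v ∈ R)
    (hg : Good P I R a (nx (I v), st)) : Good P I R a (s, st) := by
  refine good_one ?_ ?_ hg
  · unfold PBP.step
    simp only [h]
  · intro v' nx' h'
    rw [h] at h'
    cases h'
    exact hv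

theorem good_push {s s' : S} {st : List Γ} {g : Γ} (h : P.act s = .push g s')
    (hg : Good P I R a (s', g :: st)) : Good P I R a (s, st) := by
  refine good_one ?_ ?_ hg
  · unfold PBP.step
    simp only [h]
  · intro v' nx' h'
    rw [h] at h'
    cases h'

theorem good_pop {s : S} {st : List Γ} {g : Γ} {nx : Γ → S} (h : P.act s = .pop nx)
    (hg : Good P I R a (nx g, st)) : Good P I R a (s, g :: st) := by
  refine good_one ?_ ?_ hg
  · unfold PBP.step
    simp only [h]
  · intro v' nx' h'
    rw [h] at h'
    cases h'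

end runs

/-! ## The program -/

section program

variable {G : Dag} {A : Type} [AddCommGroup A]

/-- The states: the next slot and the sum of the contents before it; an edge, the sum before it and the value of the
tail; the value of a node; the output. -/
abbrev St (G : Dag) (A : Type) : Type := (G.Slot × A) ⊕ ((G.E × A × A) ⊕ (A ⊕ A))

theorem exists_pos (σ : G.Slot) : ∃ i : ℕ, (slots (G.own σ))[i]? = some σ :=
  List.mem_iff_getElem?.1 (mem_slots.2 rfl)

/-- The slot after `σ` in the list of the slots of its node. -/
noncomputable def nxt (σ : G.Slot) : Option G.Slot :=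
  (slots (G.own σ))[(exists_pos σ).choose + 1]?

/-- The first slot of a node. -/
noncomputable def fst (v : G.V) : G.Slot := (slots v)[0]'(slots_pos v)

open Classical in
/-- The state in which the value `t` of the node `v` has been found. -/
noncomputable def done (v : G.V) (t : A) : St G A :=
  if v = G.root then Sum.inr (Sum.inr (Sum.inr t)) else Sum.inr (Sum.inr (Sum.inl t))

/-- The state after the slot `σ`, with the new sum `t`. -/
noncomputable def fin (σ : G.Slot) (t : A) : St G A :=
  (nxt σ).elim (done (G.own σ) t) (fun σ' => Sum.inl (σ', t))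

/-- The instructions. -/
noncomputable def pact : St G A → PAct (G.Cell A) A (St G A) (G.E × A)
  | Sum.inl (Sum.inl w, s) => .ask (Sum.inl w) (fun b => fin (Sum.inl w) (s + b))
  | Sum.inl (Sum.inr e, s) => .push (e, s) (Sum.inl (fst (G.tail e), 0))
  | Sum.inr (Sum.inl (e, s, a)) => .ask (Sum.inr (e, a)) (fun b => fin (Sum.inr e) (s + b))
  | Sum.inr (Sum.inr (Sum.inl a)) => .pop (fun g => Sum.inr (Sum.inl (g.1, g.2, a)))
  | Sum.inr (Sum.inr (Sum.inr a)) => .out a

/-- The program. -/
noncomputable def prog (G : Dag) (A : Type) [AddCommGroup A] : PBP (G.Cell A) A (St G A) (G.E × A) where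
  start := Sum.inl (fst G.root, 0)
  act := pact

theorem slots_nodup (v : G.V) : (slots v).Nodup := by
  classical
  unfold slots
  exact Finset.nodup_toList _

theorem nxt_get {v : G.V} {i : ℕ} (hi : i < (slots v).length) : nxt (slots v)[i] = (slots v)[i + 1]? := by
  have h : G.own (slots v)[i] = v := mem_slots.1 (List.getElem_mem hi)
  have h2 := (exists_pos (slots v)[i]).choose_spec
  unfold nxt
  generalize (exists_pos (slots v)[i]).choose = l at h2
  rw [h] at h2 ⊢
  obtain ⟨hl, h3⟩ := List.getElem?_eq_some_iff.1 h2
  rw [(List.Nodup.getElem_inj_iff (slots_nodup v)).1 h3]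

/-- The work at one slot. -/
theorem step_slot (I : G.Cell A → A) {n : ℕ} {v : G.V} (hv : G.rk v = n)
    (IH : ∀ m < n, ∀ (v : G.V), G.rk v = m → ∀ (a : A) (st : List (G.E × A)),
      Good (prog G A) I (Set.range (rc I)) a (done v (G.val I v), st) → ∀ (j i : ℕ) (hi : i < (slots v).length),
      (slots v).length = i + (j + 1) → ∀ s : A, s = (((slots v).take i).map (fun σ => I (rc I σ))).sum →
      Good (prog G A) I (Set.range (rc I)) a (Sum.inl ((slots v)[i], s), st))
    {a : A} {st : List (G.E × A)} {i : ℕ} (hi : i < (slots v).length) {s : A}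
    (hg : Good (prog G A) I (Set.range (rc I)) a (fin (slots v)[i] (s + I (rc I (slots v)[i])), st)) :
    Good (prog G A) I (Set.range (rc I)) a (Sum.inl ((slots v)[i], s), st) := by
  have ho : G.own (slots v)[i] = v := mem_slots.1 (List.getElem_mem hi)
  generalize (slots v)[i] = σ at hg ho
  rcases σ with w | e
  · exact good_ask (P := prog G A) (v := Sum.inl w) (nx := fun b => fin (Sum.inl w) (s + b)) rfl
      ⟨Sum.inl w, rfl⟩ hg
  · refine good_push (P := prog G A) (g := (e, s)) (s' := Sum.inl (fst (G.tail e), 0)) rfl ?_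
    have hlt : G.rk (G.tail e) < n := by
      have h1 := G.lt e
      have h2 : G.head e = v := ho
      rw [h2, hv] at h1
      exact h1
    have hne : G.tail e ≠ G.root := G.top e
    refine IH _ hlt (G.tail e) rfl a ((e, s) :: st) ?_ ((slots (G.tail e)).length - 1) 0 (slots_pos _)
      (by have := slots_pos (G.tail e); omega) 0 (by simp)
    unfold done
    rw [if_neg hne]
    refine good_pop (P := prog G A) (g := (e, s))
      (nx := fun g => Sum.inr (Sum.inl (g.1, g.2, G.val I (G.tail e)))) rfl ?_
    exact good_ask (P := prog G A) (v := Sum.inr (e, G.val I (G.tail e)))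
      (nx := fun b => fin (Sum.inr e) (s + b)) rfl ⟨Sum.inr e, rfl⟩ hg

theorem main_run (I : G.Cell A → A) : ∀ (n : ℕ) (v : G.V), G.rk v = n → ∀ (a : A) (st : List (G.E × A)),
    Good (prog G A) I (Set.range (rc I)) a (done v (G.val I v), st) → ∀ (j i : ℕ) (hi : i < (slots v).length),
    (slots v).length = i + (j + 1) → ∀ s : A, s = (((slots v).take i).map (fun σ => I (rc I σ))).sum →
    Good (prog G A) I (Set.range (rc I)) a (Sum.inl ((slots v)[i], s), st) := by
  intro n
  induction n using Nat.strong_induction_on with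
  | _ n IH =>
  intro v hv a st hg j
  induction j with
  | zero =>
    intro i hi hlen s hs
    have hlast : Good (prog G A) I (Set.range (rc I)) a
        (fin (slots v)[i] (s + I (rc I (slots v)[i])), st) := by
      have hsum : s + I (rc I (slots v)[i]) = G.val I v := by
        rw [← sum_slots, hs]
        have htake : slots v = (slots v).take i ++ [(slots v)[i]] := by
          rw [List.take_append_getElem, List.take_of_length_le (by omega)]
        conv_rhs => rw [htake]
        rw [List.map_append, List.sum_append, List.map_singleton, List.sum_singleton]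
      have ho : G.own (slots v)[i] = v := mem_slots.1 (List.getElem_mem hi)
      unfold fin
      rw [nxt_get hi, List.getElem?_eq_none (by omega), Option.elim_none, hsum, ho]
      exact hg
    exact step_slot I hv IH hi hlast
  | succ j ih =>
    intro i hi hlen s hs
    have hnext : Good (prog G A) I (Set.range (rc I)) a
        (fin (slots v)[i] (s + I (rc I (slots v)[i])), st) := by
      have hi' : i + 1 < (slots v).length := by omega
      unfold fin
      rw [nxt_get hi, List.getElem?_eq_getElem hi', Option.elim_some]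
      refine ih (i + 1) hi' (by omega) _ ?_
      rw [← List.take_append_getElem hi, List.map_append, List.sum_append, List.map_singleton, List.sum_singleton, hs]
    exact step_slot I hv IH hi hnext

omit [AddCommGroup A] in
/-- The number of the states is at most the third power of the number of the cells. -/
theorem card_St [Fintype A] (hA : 2 ≤ Fintype.card A) (hE : 1 ≤ Fintype.card G.E) :
    Nat.card (St G A) ≤ Nat.card (G.Cell A) ^ 3 := by
  classical
  have h1 : Nat.card (G.Cell A) = Fintype.card G.Src + Fintype.card G.E * Fintype.card A := by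
    rw [Nat.card_eq_fintype_card, Fintype.card_sum, Fintype.card_prod]
  have h2 : Nat.card (St G A) = (Fintype.card G.Src + Fintype.card G.E) * Fintype.card A +
      (Fintype.card G.E * (Fintype.card A * Fintype.card A) + (Fintype.card A + Fintype.card A)) := by
    rw [Nat.card_eq_fintype_card, Fintype.card_sum, Fintype.card_sum, Fintype.card_sum, Fintype.card_prod,
      Fintype.card_prod, Fintype.card_prod, Fintype.card_sum]
  -- there is a source
  have h3 : 1 ≤ Fintype.card G.Src := by
    obtain ⟨v, -, hv⟩ := Finset.exists_min_image (Finset.univ : Finset G.V) G.rk ⟨G.root, Finset.mem_univ _⟩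
    refine Fintype.card_pos_iff.2 ⟨⟨v, fun e he => ?_⟩⟩
    have h4 := hv (G.tail e) (Finset.mem_univ _)
    have h5 := G.lt e
    rw [he] at h5
    omega
  rw [h1, h2]
  generalize Fintype.card G.Src = x at h3
  generalize Fintype.card G.E = y at hE
  generalize Fintype.card A = k at hA
  obtain ⟨x, rfl⟩ : ∃ x', x = x' + 1 := ⟨x - 1, by omega⟩
  obtain ⟨y, rfl⟩ : ∃ y', y = y' + 1 := ⟨y - 1, by omega⟩
  obtain ⟨k, rfl⟩ : ∃ k', k = k' + 2 := ⟨k - 2, by omega⟩
  set M := x + 1 + (y + 1) * (k + 2) with hM
  have hM3 : 3 ≤ M := by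
    rw [hM]
    nlinarith [Nat.zero_le (y * k)]
  have hkM : k + 3 ≤ M := by
    rw [hM]
    nlinarith [Nat.zero_le (y * k)]
  have hyM : (y + 1) * (k + 2) + 1 ≤ M := by
    rw [hM]
    omega
  have hxyM : (x + 1 + (y + 1)) ≤ M := by
    rw [hM]
    nlinarith [Nat.zero_le (y * k)]
  have e1 : (x + 1 + (y + 1)) * (k + 2) ≤ M * (M - 1) := Nat.mul_le_mul hxyM (by omega)
  have e2 : (y + 1) * ((k + 2) * (k + 2)) ≤ (M - 1) * (M - 1) := by
    calc (y + 1) * ((k + 2) * (k + 2)) = ((y + 1) * (k + 2)) * (k + 2) := by ring
      _ ≤ (M - 1) * (M - 1) := Nat.mul_le_mul (by omega) (by omega)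
  obtain ⟨m, hm⟩ : ∃ m, M = m + 3 := ⟨M - 3, by omega⟩
  have hm1 : M - 1 = m + 2 := by omega
  rw [hm1] at e1 e2
  rw [hm] at e1 ⊢
  have e3 : k + 2 ≤ m + 2 := by omega
  calc (x + 1 + (y + 1)) * (k + 2) + ((y + 1) * ((k + 2) * (k + 2)) + (k + 2 + (k + 2)))
      ≤ (m + 3) * (m + 2) + ((m + 2) * (m + 2) + (m + 2 + (m + 2))) := by omega
    _ ≤ (m + 3) ^ 3 := by nlinarith [Nat.zero_le m, Nat.zero_le (m * m), Nat.zero_le (m * m * m)]

variable (G A)

/-- Recursion with a pushdown store. -/
theorem pushdown_program [Fintype A] (hA : 2 ≤ Fintype.card A) (hE : 1 ≤ Fintype.card G.E) :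
    ∃ (S Γ : Type) (_ : Finite S) (_ : Finite Γ) (P : PBP (G.Cell A) A S Γ),
      Nat.card S ≤ Nat.card (G.Cell A) ^ 3 ∧ Nat.card Γ ≤ Nat.card (G.Cell A) ∧
      ∀ I, P.Outputs I (G.val I G.root) ∧
        Nat.card {c // P.Asks I c} ≤ Fintype.card G.Src + Fintype.card G.E := by
  classical
  refine ⟨St G A, G.E × A, inferInstance, inferInstance, prog G A, card_St hA hE, ?_, fun I => ?_⟩
  · exact Nat.card_le_card_of_injective (fun x => (Sum.inr x : G.Cell A)) Sum.inr_injective
  · have hroot : Good (prog G A) I (Set.range (rc I)) (G.val I G.root) (done G.root (G.val I G.root), []) := by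
      refine good_out ?_
      show pact (done G.root (G.val I G.root)) = _
      unfold done
      rw [if_pos rfl]
      rfl
    obtain ⟨h1, h2⟩ := main_run I _ G.root rfl _ [] hroot ((slots G.root).length - 1) 0 (slots_pos _)
      (by have := slots_pos (G := G) G.root; omega) 0 (by simp)
    refine ⟨h1, ?_⟩
    have h3 : ∀ c : {c // (prog G A).Asks I c}, ∃ s, rc I s = c.1 := by
      rintro ⟨c, m, nx, hm⟩
      exact h2 m c nx hm
    choose f hf using h3
    have h4 : Function.Injective f := fun c c' h => Subtype.ext (by rw [← hf c, ← hf c', h])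
    calc Nat.card {c // (prog G A).Asks I c} ≤ Nat.card G.Slot := Nat.card_le_card_of_injective f h4
      _ = Fintype.card G.Src + Fintype.card G.E := by rw [Nat.card_eq_fintype_card, Fintype.card_sum]

end program

end Pool.Agent.Helper18.IP
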